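import Pool.Agent.H95.CF.T2B

/-!
# Forms of a fundamental discriminant are primitive
-/

set_option autoImplicit false

namespace Pool.Agent.H14.CF

open Pool.Agent.H31.CN Pool.Agent.H95.CF

theorem pct_e (a b c : ℤ) : (4 * a * c - b ^ 2) % 4 = 0 ∨ (4 * a * c - b ^ 2) % 4 = 3 := by
  rcases Int.even_or_odd' b with ⟨k, rfl | rfl⟩
  · left
    have h1 : 4 * a * c - (2 * k) ^ 2 = 4 * (a * c - k ^ 2) := by ring
    rw [h1]
    omega
  · right
    have h1 : 4 * a * c - (2 * k + 1) ^ 2 = 4 * (a * c - k ^ 2 - k) - 1 := by ring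
    rw [h1]
    omega

theorem pf_PCT : T_PCT := by
  intro D hD
  constructor
  · intro Q hQ t h1 h2 h3
    obtain ⟨hA, hdisc⟩ := hQ
    obtain ⟨a, ha⟩ := h1
    obtain ⟨b, hb⟩ := h2
    obtain ⟨c, hc⟩ := h3
    have hd : (t : ℤ) * t * (4 * a * c - b ^ 2) = D := by
      rw [← hdisc, dsc, ha, hb, hc]
      ring
    rcases hD with ⟨-, hsq⟩ | ⟨h4, hsq, hm⟩
    · have h5 : t * t ∣ D := by
        have h6 : ((t * t : ℕ) : ℤ) ∣ (D : ℤ) := by
          push_cast
          exact ⟨_, hd.symm⟩
        exact_mod_cast h6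
      exact Nat.isUnit_iff.mp (hsq t h5)
    · obtain ⟨m, rfl⟩ := h4
      rw [Nat.mul_div_cancel_left m (by norm_num)] at hsq hm
      rcases Nat.even_or_odd' t with ⟨s, rfl | rfl⟩
      · exfalso
        have hd' : (s : ℤ) * s * (4 * a * c - b ^ 2) = m := by
          push_cast at hd
          have h5 : 4 * ((s : ℤ) * s * (4 * a * c - b ^ 2)) = 4 * m := by
            rw [← hd]
            ring
          linarith
        have h5 : s * s ∣ m := by
          have h6 : ((s * s : ℕ) : ℤ) ∣ (m : ℤ) := by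
            push_cast
            exact ⟨_, hd'.symm⟩
          exact_mod_cast h6
        have h6 : s = 1 := Nat.isUnit_iff.mp (hsq s h5)
        rw [h6] at hd'
        have hd2 : 4 * a * c - b ^ 2 = (m : ℤ) := by
          rw [← hd']
          push_cast
          ring
        have h7 := pct_e a b c
        rw [hd2] at h7
        omega
      · have h5 : (2 * s + 1) * (2 * s + 1) ∣ 4 * m := by
          have h6 : (((2 * s + 1) * (2 * s + 1) : ℕ) : ℤ) ∣ ((4 * m : ℕ) : ℤ) := by
            rw [← hd]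
            push_cast
            exact ⟨_, rfl⟩
          exact_mod_cast h6
        have h6 : Nat.Coprime ((2 * s + 1) * (2 * s + 1)) 4 := by
          have h7 : Nat.Coprime (2 * s + 1) 2 := by
            rw [Nat.coprime_two_right]
            exact ⟨s, rfl⟩
          have h8 : Nat.Coprime (2 * s + 1) 4 := by
            rw [show (4 : ℕ) = 2 * 2 by norm_num]
            exact Nat.Coprime.mul_right h7 h7
          exact Nat.Coprime.mul_left h8 h8
        exact Nat.isUnit_iff.mp (hsq _ (h6.dvd_of_dvd_mul_left h5))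
  · rw [Pool.Agent.H91.CF.Q1, pfm]
    rcases hD with ⟨h3, -⟩ | ⟨h4, -⟩
    · rw [if_pos h3]
      have h1 : D % 2 = 1 := by omega
      rw [h1]
      refine Prod.ext rfl (Prod.ext rfl ?_)
      show ((D : ℤ) + 1) / 4 = (((D + 1) / 4 : ℕ) : ℤ)
      omega
    · rw [if_neg (by omega)]
      have h1 : D % 2 = 0 := by omega
      rw [h1]
      refine Prod.ext rfl (Prod.ext rfl ?_)
      show (D : ℤ) / 4 = (((D + 0) / 4 : ℕ) : ℤ)
      omega

end Pool.Agent.H14.CF
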