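import Pool.Agent.H95.CF.Targets
import Pool.Agent.H16.CN.CG

/-!
# (ZRO) the consequence of the vanishing at one half
-/

set_option autoImplicit false

open NumberField Module MeasureTheory Set Filter Pool.Agent.H31.CN Pool.Agent.H95.CF
open scoped nonZeroDivisors Real

namespace Pool.Agent.H14.CF

/-- ideals prime to `f` and the norm of a product -/
theorem zro_pr (K : Type) [Field K] [NumberField K] (hPRN : T_PRN) (f m : ℕ)
    (hm : Nat.Coprime m f) (P J : (Ideal (𝓞 K))⁰)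
    (hP : Ideal.absNorm (P : Ideal (𝓞 K)) = m) :
    Pr K f P ∧ (Pr K f ((P * J : (Ideal (𝓞 K))⁰) : Ideal (𝓞 K)) ↔ Pr K f J) := by
  have hP0 : (P : Ideal (𝓞 K)) ≠ ⊥ := nonZeroDivisors.coe_ne_zero P
  have hJ0 : (J : Ideal (𝓞 K)) ≠ ⊥ := nonZeroDivisors.coe_ne_zero J
  have hPJ0 : ((P * J : (Ideal (𝓞 K))⁰) : Ideal (𝓞 K)) ≠ ⊥ := nonZeroDivisors.coe_ne_zero (P * J)
  refine ⟨(hPRN K f _ hP0).mpr (by rw [hP]; exact hm), ?_⟩
  rw [hPRN K f _ hPJ0, hPRN K f _ hJ0, Submonoid.coe_mul, map_mul, hP,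
    Nat.coprime_mul_iff_left]
  exact ⟨fun h => h.2, fun h => ⟨hm, h⟩⟩

/-- **(ZRO)** -/
theorem pf_ZRO (hPRN : T_PRN) (_hREP : T_REP) (hLFN : T_LFN) (hMUL : T_MUL) (hOMS : T_OMS) :
    T_ZRO := by
  classical
  intro D K _ _ σ Q I α β b f G _ _ cl φ S cc hD hfin hdis hFB hf hRG hprim hS hnv
  obtain ⟨F, hF, -, hFs⟩ := hLFN D K σ Q I α β b f G cl φ hD hfin hdis hFB hf hRG hprim
  have hF0 : F (1 / 2) = 0 := by
    by_contra h
    exact hnv ⟨F, hF, h⟩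
  rw [hF0, zero_div] at hFs
  obtain ⟨χ, hχ⟩ : ∃ χ : (Ideal (𝓞 K))⁰ → ℂ, ∀ J : (Ideal (𝓞 K))⁰,
      χ J = (if Pr K f J then ((φ (cl J) : ℂˣ) : ℂ) else 0) := ⟨_, fun _ => rfl⟩
  have hFs' : HasSum (fun J : (Ideal (𝓞 K))⁰ => χ J *
      ((Vk (Ideal.absNorm (J : Ideal (𝓞 K)) / (f * Real.sqrt D)) /
        Real.sqrt (Ideal.absNorm (J : Ideal (𝓞 K))) : ℝ) : ℂ)) 0 := by
    refine hFs.congr_fun ?_
    intro J
    rw [hχ]
  -- the Hecke relations
  have hM : ∀ m ∈ S, HasSum (fun J : (Ideal (𝓞 K))⁰ => χ J *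
      ((Vk (Ideal.absNorm (J : Ideal (𝓞 K)) / (m * (f * Real.sqrt D))) *
        Nat.card {P : Ideal (𝓞 K) // Ideal.absNorm P = m ∧ P ∣ (J : Ideal (𝓞 K))} /
        Real.sqrt (Ideal.absNorm (J : Ideal (𝓞 K))) : ℝ) : ℂ)) 0 := by
    intro m hm
    obtain ⟨hsq, hcop⟩ := hS m hm
    have hm1 : 1 ≤ m := Nat.one_le_iff_ne_zero.mpr hsq.ne_zero
    refine hMUL K χ (f * Real.sqrt D) m hm1 ?_ hFs'
    intro P J hP
    obtain ⟨h1, h2⟩ := zro_pr K hPRN f m hcop P J hP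
    rw [hχ, hχ, hχ, if_pos h1]
    by_cases h3 : Pr K f J
    · rw [if_pos (h2.mpr h3), if_pos h3, Submonoid.coe_mul, hRG.mul _ _ h1 h3, map_mul,
        Units.val_mul]
    · rw [if_neg (fun h => h3 (h2.mp h)), if_neg h3, mul_zero]
  have hM2 : HasSum (fun J : (Ideal (𝓞 K))⁰ => ∑ m ∈ S, (cc m : ℂ) * (χ J *
      ((Vk (Ideal.absNorm (J : Ideal (𝓞 K)) / (m * (f * Real.sqrt D))) *
        Nat.card {P : Ideal (𝓞 K) // Ideal.absNorm P = m ∧ P ∣ (J : Ideal (𝓞 K))} /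
        Real.sqrt (Ideal.absNorm (J : Ideal (𝓞 K))) : ℝ) : ℂ))) 0 := by
    have h1 := hasSum_sum (s := S) (fun m hm => (hM m hm).mul_left (cc m : ℂ))
    simpa using h1
  obtain ⟨fJ, hfJ⟩ : ∃ fJ : (Ideal (𝓞 K))⁰ → ℂ, ∀ J : (Ideal (𝓞 K))⁰, fJ J = χ J *
      (((∑ m ∈ S, cc m * Vk (Ideal.absNorm (J : Ideal (𝓞 K)) / (m * (f * Real.sqrt D))) *
        Nat.card {P : Ideal (𝓞 K) // Ideal.absNorm P = m ∧ P ∣ (J : Ideal (𝓞 K))}) /
        Real.sqrt (Ideal.absNorm (J : Ideal (𝓞 K))) : ℝ) : ℂ) := ⟨_, fun _ => rfl⟩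
  have hM3 : HasSum fJ 0 := by
    refine hM2.congr_fun ?_
    intro J
    rw [hfJ, Finset.sum_div, Complex.ofReal_sum, Finset.mul_sum]
    apply Finset.sum_congr rfl
    intro m _
    push_cast
    ring
  -- the vectors
  have hD0 : 0 < D := by omega
  have hB : ∀ c : ClassGroup (𝓞 K), ∀ v : ℤ × ℤ, (if v = 0 then 0 else fJ (b c v)) =
      (if Un f (Q c) v then ((φ (cl (b c v)) : ℂˣ) : ℂ) *
        ((om S cc f D (Q c) v : ℝ) : ℂ) else 0) := by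
    intro c v
    by_cases hv : v = 0
    · rw [if_pos hv, hv]
      have h1 := (hOMS S cc f D (Q c) (fun m hm => (hS m hm).1) hf hD0 (hFB.fd c)).2
      rw [h1]
      simp
    · rw [if_neg hv, hfJ, hχ]
      have h0 : ((b c v : (Ideal (𝓞 K))⁰) : Ideal (𝓞 K)) ≠ ⊥ :=
        nonZeroDivisors.coe_ne_zero (b c v)
      have hn := hFB.nrm c v hv
      have h1 : Pr K f (b c v) ↔ Un f (Q c) v := by
        rw [hPRN K f _ h0, Un, ← hn, Nat.isCoprime_iff_coprime]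
      have h2 : (Ideal.absNorm ((b c v : (Ideal (𝓞 K))⁰) : Ideal (𝓞 K)) : ℝ) =
          (val (Q c) v : ℝ) := by
        exact_mod_cast congrArg (fun z : ℤ => (z : ℝ)) hn
      by_cases h3 : Un f (Q c) v
      · rw [if_pos (h1.mpr h3), if_pos h3, om, h2]
        have h4 : (∑ m ∈ S, cc m * Vk (val (Q c) v / (m * (f * Real.sqrt D))) *
            Nat.card {P : Ideal (𝓞 K) // Ideal.absNorm P = m ∧
              P ∣ ((b c v : (Ideal (𝓞 K))⁰) : Ideal (𝓞 K))}) =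
            ∑ m ∈ S, cc m * Vk (val (Q c) v / (m * (f * Real.sqrt D))) * nu m (Q c) v := by
          apply Finset.sum_congr rfl
          intro m hm
          rw [hFB.nu c v m hv (hS m hm).1]
        rw [h4]
      · rw [if_neg (fun h => h3 (h1.mp h)), if_neg h3, zero_mul]
  have hsum : ∀ c : ClassGroup (𝓞 K), Summable (fun v : ℤ × ℤ =>
      (if Un f (Q c) v then ((φ (cl (b c v)) : ℂˣ) : ℂ) *
        ((om S cc f D (Q c) v : ℝ) : ℂ) else 0)) := by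
    intro c
    have h1 := (hOMS S cc f D (Q c) (fun m hm => (hS m hm).1) hf hD0 (hFB.fd c)).1
    refine Summable.of_norm_bounded
      (h1.mul_left (∑ g : G, ‖((φ g : ℂˣ) : ℂ)‖)) ?_
    intro v
    by_cases h3 : Un f (Q c) v
    · rw [if_pos h3, norm_mul, Complex.norm_real, Real.norm_eq_abs]
      apply mul_le_mul_of_nonneg_right _ (abs_nonneg _)
      exact Finset.single_le_sum (f := fun g : G => ‖((φ g : ℂˣ) : ℂ)‖)
        (fun g _ => norm_nonneg _) (Finset.mem_univ _)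
    · rw [if_neg h3, norm_zero]
      exact mul_nonneg (Finset.sum_nonneg (fun g _ => norm_nonneg _)) (abs_nonneg _)
  have hall := Pool.Agent.H16.CN.hasSum_all (fun J : (Ideal (𝓞 K))⁰ => ClassGroup.mk0 J) b
    hFB.cls (fun c J hJ => by
      obtain ⟨v, hv, hvJ⟩ := hFB.sur J
      refine ⟨v, hv, ?_⟩
      have hJ' : ClassGroup.mk0 J = c := hJ
      rw [← hJ']
      exact hvJ) hFB.eqv (fun _ => 1) fJ
    (fun c => ∑' u : ℤ × ℤ, (if Un f (Q c) u then ((φ (cl (b c u)) : ℂˣ) : ℂ) *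
      ((om S cc f D (Q c) u : ℝ) : ℂ) else 0)) (by
      intro c
      refine (hsum c).hasSum.congr_fun ?_
      intro v
      exact (hB c v))
  have hall' : HasSum fJ (∑ c, (1 : ℂ) * ((∑' u : ℤ × ℤ, (if Un f (Q c) u then
      ((φ (cl (b c u)) : ℂˣ) : ℂ) * ((om S cc f D (Q c) u : ℝ) : ℂ) else 0)) / 2)) := by
    refine hall.congr_fun ?_
    intro J
    rw [one_mul]
  have h5 := hall'.unique hM3
  simp only [one_mul, ← Finset.sum_div] at h5
  rcases div_eq_zero_iff.mp h5 with h6 | h6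
  · exact h6
  · norm_num at h6

end Pool.Agent.H14.CF
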