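import Pool.Agent.H31.CF.U3

/-!
# (GRL) the Gram identity at one prime
-/

set_option autoImplicit false

open Pool.Agent.H31.CN Pool.Agent.H91.CF Pool.Agent.H31.CF
open scoped Real Matrix MatrixGroups

namespace Pool.Agent.H14.CFU

/-- sums over `range q` as sums over the residues -/
theorem grl_rng (q : ℕ) [NeZero q] (h : ℕ → ℝ) :
    ∑ a ∈ Finset.range q, h a = ∑ x : ZMod q, h x.val := by
  refine Finset.sum_bij' (fun a _ => (a : ZMod q)) (fun x _ => x.val) ?_ ?_ ?_ ?_ ?_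
  · intro a _
    exact Finset.mem_univ _
  · intro x _
    exact Finset.mem_range.mpr (ZMod.val_lt x)
  · intro a ha
    exact ZMod.val_cast_of_lt (Finset.mem_range.mp ha)
  · intro x _
    exact ZMod.natCast_zmod_val x
  · intro a ha
    rw [ZMod.val_cast_of_lt (Finset.mem_range.mp ha)]

/-- change of the basis -/
theorem grl_cv (q : ℕ) (hq : 0 < q) (g : ℤ × ℤ → ℝ)
    (hg : ∀ u u' : ℤ × ℤ, (q : ℤ) ∣ u.1 - u'.1 → (q : ℤ) ∣ u.2 - u'.2 → g u = g u')
    (v w : ℤ × ℤ) (hvw : (q : ℤ) ∣ dtm v w - 1) :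
    ∑ a ∈ Finset.range q, ∑ b ∈ Finset.range q, g ((a : ℤ), (b : ℤ)) =
      ∑ s ∈ Finset.range q, ∑ t ∈ Finset.range q,
        g ((s : ℤ) * v.1 + t * w.1, (s : ℤ) * v.2 + t * w.2) := by
  have : NeZero q := ⟨hq.ne'⟩
  have h1 : ((v.1 : ℤ) : ZMod q) * ((w.2 : ℤ) : ZMod q) -
      ((v.2 : ℤ) : ZMod q) * ((w.1 : ℤ) : ZMod q) = 1 := by
    have h2 := (ZMod.intCast_zmod_eq_zero_iff_dvd _ _).mpr hvw
    unfold dtm at h2
    push_cast at h2
    linear_combination h2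
  have hval : ∀ (x : ZMod q) (z : ℤ), x = (z : ZMod q) → (q : ℤ) ∣ (x.val : ℤ) - z := by
    intro x z hx
    rw [← ZMod.intCast_zmod_eq_zero_iff_dvd]
    push_cast
    rw [ZMod.natCast_zmod_val, hx, sub_self]
  let e : ZMod q × ZMod q ≃ ZMod q × ZMod q :=
    { toFun := fun s => (s.1 * ((v.1 : ℤ) : ZMod q) + s.2 * ((w.1 : ℤ) : ZMod q),
        s.1 * ((v.2 : ℤ) : ZMod q) + s.2 * ((w.2 : ℤ) : ZMod q))
      invFun := fun u => (u.1 * ((w.2 : ℤ) : ZMod q) - u.2 * ((w.1 : ℤ) : ZMod q),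
        ((v.1 : ℤ) : ZMod q) * u.2 - ((v.2 : ℤ) : ZMod q) * u.1)
      left_inv := by
        intro s
        apply Prod.ext
        · simp only
          linear_combination s.1 * h1
        · simp only
          linear_combination s.2 * h1
      right_inv := by
        intro u
        apply Prod.ext
        · simp only
          linear_combination u.1 * h1
        · simp only
          linear_combination u.2 * h1 }
  have h3 : ∀ h : ℕ → ℕ → ℝ, ∑ a ∈ Finset.range q, ∑ b ∈ Finset.range q, h a b =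
      ∑ u : ZMod q × ZMod q, h u.1.val u.2.val := by
    intro h
    rw [Fintype.sum_prod_type, grl_rng q (fun a => ∑ b ∈ Finset.range q, h a b)]
    apply Finset.sum_congr rfl
    intro x _
    exact grl_rng q (fun b => h x.val b)
  rw [h3 (fun a b => g ((a : ℤ), (b : ℤ))),
    h3 (fun s t => g ((s : ℤ) * v.1 + t * w.1, (s : ℤ) * v.2 + t * w.2)),
    ← Equiv.sum_comp e]
  apply Finset.sum_congr rfl
  intro s _
  apply hg
  · apply hval
    simp only [e, Equiv.coe_fn_mk]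
    push_cast
    rw [ZMod.natCast_zmod_val, ZMod.natCast_zmod_val]
  · apply hval
    simp only [e, Equiv.coe_fn_mk]
    push_cast
    rw [ZMod.natCast_zmod_val, ZMod.natCast_zmod_val]

/-- a complement of a primitive vector -/
theorem grl_w (p k : ℕ) (hp : p.Prime) (v : ℤ × ℤ)
    (hv : ¬ ((p : ℤ) ∣ v.1 ∧ (p : ℤ) ∣ v.2)) :
    ∃ w : ℤ × ℤ, ((p ^ k : ℕ) : ℤ) ∣ dtm v w - 1 := by
  have hpp : Prime (p : ℤ) := Nat.prime_iff_prime_int.mp hp
  have h0 : ∀ x : ℤ, ¬ (p : ℤ) ∣ x → ∃ z : ℤ, ((p ^ k : ℕ) : ℤ) ∣ x * z - 1 := by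
    intro x hx
    have h1 : IsCoprime (p : ℤ) x := (Prime.coprime_iff_not_dvd hpp).mpr hx
    obtain ⟨a, b, hab⟩ := (h1.pow_left (m := k))
    refine ⟨b, ⟨-a, ?_⟩⟩
    push_cast
    linear_combination hab
  by_cases h1 : (p : ℤ) ∣ v.1
  · have h2 : ¬ (p : ℤ) ∣ v.2 := fun h => hv ⟨h1, h⟩
    obtain ⟨z, hz⟩ := h0 v.2 h2
    refine ⟨(-z, 0), ?_⟩
    have h3 : dtm v (-z, 0) - 1 = v.2 * z - 1 := by
      simp only [dtm]
      ring
    rw [h3]
    exact hz
  · obtain ⟨z, hz⟩ := h0 v.1 h1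
    refine ⟨(0, z), ?_⟩
    have h3 : dtm v (0, z) - 1 = v.1 * z - 1 := by
      simp only [dtm]
      ring
    rw [h3]
    exact hz

/-- a vector with a value prime to `p` is primitive modulo `p` -/
theorem grl_prim (p : ℕ) (Q : QF) (v : ℤ × ℤ) (hv : ¬ (p : ℤ) ∣ val Q v) :
    ¬ ((p : ℤ) ∣ v.1 ∧ (p : ℤ) ∣ v.2) := by
  rintro ⟨⟨a, ha⟩, ⟨b, hb⟩⟩
  apply hv
  unfold val
  rw [ha, hb]
  exact ⟨Q.1 * (p * a ^ 2) + Q.2.1 * a * (p * b) + Q.2.2 * (p * b ^ 2), by ring⟩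

/-- the values at congruent vectors -/
theorem grl_val (p : ℤ) (Q : QF) (u u' : ℤ × ℤ) (h1 : p ∣ u.1 - u'.1) (h2 : p ∣ u.2 - u'.2) :
    (p ∣ val Q u) ↔ (p ∣ val Q u') := by
  obtain ⟨a, ha⟩ := h1
  obtain ⟨b, hb⟩ := h2
  have h3 : u.1 = u'.1 + p * a := by linarith
  have h4 : u.2 = u'.2 + p * b := by linarith
  have h5 : val Q u = val Q u' + p * (Q.1 * (2 * u'.1 * a + p * a ^ 2) +
      Q.2.1 * (u'.1 * b + u'.2 * a + p * a * b) + Q.2.2 * (2 * u'.2 * b + p * b ^ 2)) := by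
    unfold val
    rw [h3, h4]
    ring
  rw [h5]
  exact dvd_add_left (dvd_mul_right _ _)

/-- the number of the multiples of `p ^ i` -/
theorem grl_mul (p k i : ℕ) (hp : p.Prime) (hik : i ≤ k) :
    ∑ t ∈ Finset.range (p ^ k), (if (p : ℤ) ^ i ∣ (t : ℤ) then (1 : ℝ) else 0) =
      (p : ℝ) ^ (k - i) := by
  have hp0 := hp.pos
  rw [Finset.sum_boole]
  have h1 : (Finset.range (p ^ k)).filter (fun t : ℕ => (p : ℤ) ^ i ∣ (t : ℤ)) =
      (Finset.range (p ^ (k - i))).image (fun t => p ^ i * t) := by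
    ext t
    rw [Finset.mem_filter, Finset.mem_image, Finset.mem_range]
    constructor
    · rintro ⟨h2, h3⟩
      have h4 : p ^ i ∣ t := by exact_mod_cast h3
      obtain ⟨r, rfl⟩ := h4
      refine ⟨r, ?_, rfl⟩
      rw [Finset.mem_range]
      have h5 : p ^ k = p ^ i * p ^ (k - i) := by
        rw [← pow_add]
        congr 1
        omega
      rw [h5] at h2
      exact lt_of_mul_lt_mul_left h2 (Nat.zero_le _)
    · rintro ⟨r, hr, rfl⟩
      rw [Finset.mem_range] at hr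
      have h5 : p ^ k = p ^ i * p ^ (k - i) := by
        rw [← pow_add]
        congr 1
        omega
      refine ⟨?_, ?_⟩
      · rw [h5]
        exact (Nat.mul_lt_mul_left (by positivity)).mpr hr
      · push_cast
        exact dvd_mul_right _ _
  rw [h1, Finset.card_image_of_injective]
  · rw [Finset.card_range]
    push_cast
    rfl
  · intro a b hab
    exact Nat.eq_of_mul_eq_mul_left (by positivity) hab

/-- the number of the units -/
theorem grl_tot (p k : ℕ) (hp : p.Prime) (hk : 1 ≤ k) :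
    ∑ s ∈ Finset.range (p ^ k), (if ¬ (p : ℤ) ∣ (s : ℤ) then (1 : ℝ) else 0) =
      (Nat.totient (p ^ k) : ℝ) := by
  rw [Finset.sum_boole, Nat.totient_eq_card_coprime]
  congr 2
  apply Finset.filter_congr
  intro s _
  rw [Nat.coprime_pow_left_iff (by omega), hp.coprime_iff_not_dvd, Int.natCast_dvd_natCast]

/-- the number of the vectors with value prime to `p` on the lines -/
theorem grl_cnt (p k i : ℕ) (hp : p.Prime) (hi : 1 ≤ i) (hik : i ≤ k) (Q : QF) (v : ℤ × ℤ)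
    (hv : ¬ (p : ℤ) ∣ val Q v) :
    ∑ a ∈ Finset.range (p ^ k), ∑ b ∈ Finset.range (p ^ k),
      (if ¬ (p : ℤ) ∣ val Q ((a : ℤ), (b : ℤ)) ∧ (p : ℤ) ^ i ∣ dtm ((a : ℤ), (b : ℤ)) v
        then (1 : ℝ) else 0) = (Nat.totient (p ^ k) : ℝ) * (p : ℝ) ^ (k - i) := by
  have hpp : Prime (p : ℤ) := Nat.prime_iff_prime_int.mp hp
  have hqi : (p : ℤ) ^ i ∣ ((p ^ k : ℕ) : ℤ) := by
    push_cast
    exact pow_dvd_pow _ hik
  have hpi : (p : ℤ) ∣ (p : ℤ) ^ i := dvd_pow_self _ (by omega)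
  obtain ⟨w, hw⟩ := grl_w p k hp v (grl_prim p Q v hv)
  have h1 := grl_cv (p ^ k) (pow_pos hp.pos k) (fun u => if ¬ (p : ℤ) ∣ val Q u ∧
    (p : ℤ) ^ i ∣ dtm u v then (1 : ℝ) else 0) (by
      intro u u' h1 h2
      have h3 : ((p : ℤ) ∣ val Q u) ↔ ((p : ℤ) ∣ val Q u') :=
        grl_val p Q u u' ((hpi.trans hqi).trans h1) ((hpi.trans hqi).trans h2)
      have h4 : ((p : ℤ) ^ i ∣ dtm u v) ↔ ((p : ℤ) ^ i ∣ dtm u' v) := by
        have h5 : dtm u v = dtm u' v + ((u.1 - u'.1) * v.2 - (u.2 - u'.2) * v.1) := by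
          unfold dtm
          ring
        rw [h5]
        exact dvd_add_left (dvd_sub ((hqi.trans h1).mul_right _) ((hqi.trans h2).mul_right _))
      exact if_congr (and_congr (not_congr h3) h4) rfl rfl) v w hw
  rw [h1, ← grl_tot p k hp (hi.trans hik), ← grl_mul p k i hp hik, Finset.sum_mul_sum]
  apply Finset.sum_congr rfl
  intro s _
  apply Finset.sum_congr rfl
  intro t _
  have h2 : ((p : ℤ) ^ i ∣ dtm ((s : ℤ) * v.1 + t * w.1, (s : ℤ) * v.2 + t * w.2) v) ↔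
      ((p : ℤ) ^ i ∣ (t : ℤ)) := by
    have h3 : dtm ((s : ℤ) * v.1 + t * w.1, (s : ℤ) * v.2 + t * w.2) v =
        -(t : ℤ) + (-((t : ℤ) * (dtm v w - 1))) := by
      unfold dtm
      ring
    rw [h3, dvd_add_left, dvd_neg]
    rw [dvd_neg]
    exact (hqi.trans hw).mul_left _
  by_cases ht : (p : ℤ) ^ i ∣ (t : ℤ)
  · have h4 : ((p : ℤ) ∣ val Q ((s : ℤ) * v.1 + t * w.1, (s : ℤ) * v.2 + t * w.2)) ↔
        ((p : ℤ) ∣ (s : ℤ)) := by
      rw [grl_val p Q _ ((s : ℤ) * v.1, (s : ℤ) * v.2)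
        (by simp only [add_sub_cancel_left]; exact (hpi.trans ht).mul_right _)
        (by simp only [add_sub_cancel_left]; exact (hpi.trans ht).mul_right _)]
      have h5 : val Q ((s : ℤ) * v.1, (s : ℤ) * v.2) = (s : ℤ) ^ 2 * val Q v := by
        unfold val
        ring
      rw [h5]
      constructor
      · intro h6
        rcases hpp.dvd_or_dvd h6 with h7 | h7
        · exact hpp.dvd_of_dvd_pow h7
        · exact absurd h7 hv
      · intro h6
        exact (dvd_pow h6 two_ne_zero).mul_right _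
    rw [if_congr (and_congr (not_congr h4) h2) rfl rfl, if_pos ht, mul_one]
    by_cases hs : (p : ℤ) ∣ (s : ℤ)
    · rw [if_neg (fun h => h.1 hs), if_neg (not_not.mpr hs)]
    · rw [if_pos ⟨hs, ht⟩, if_pos hs]
  · rw [if_neg (fun h => ht (h2.mp h.2)), if_neg ht, mul_zero]

/-- the number of the vectors modulo `p` with value prime to `p` -/
theorem grl_all (p : ℕ) (hp : p.Prime) (Q : QF) :
    ∑ a ∈ Finset.range p, ∑ b ∈ Finset.range p,
      (if ¬ (p : ℤ) ∣ val Q ((a : ℤ), (b : ℤ)) then (1 : ℝ) else 0) =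
      ((p : ℝ) - 1) * ((p : ℝ) + 1 - (prt p Q : ℝ)) := by
  have := Fact.mk hp
  have hc : ∀ (z : ℤ), (if ¬ (p : ℤ) ∣ z then (1 : ℝ) else 0) =
      (if (z : ZMod p) ≠ 0 then (1 : ℝ) else 0) := by
    intro z
    exact if_congr (not_congr (ZMod.intCast_zmod_eq_zero_iff_dvd _ _).symm) rfl rfl
  have h1 : ∑ a ∈ Finset.range p, ∑ b ∈ Finset.range p,
      (if ¬ (p : ℤ) ∣ val Q ((a : ℤ), (b : ℤ)) then (1 : ℝ) else 0) =
      ∑ y : ZMod p, ∑ x : ZMod p, (if (Q.1 : ZMod p) * x ^ 2 + (Q.2.1 : ZMod p) * x * y +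
        (Q.2.2 : ZMod p) * y ^ 2 ≠ 0 then (1 : ℝ) else 0) := by
    rw [Finset.sum_comm, grl_rng p (fun b => ∑ a ∈ Finset.range p,
      (if ¬ (p : ℤ) ∣ val Q ((a : ℤ), (b : ℤ)) then (1 : ℝ) else 0))]
    apply Finset.sum_congr rfl
    intro y _
    rw [grl_rng p (fun a => (if ¬ (p : ℤ) ∣ val Q ((a : ℤ), (y.val : ℤ)) then (1 : ℝ) else 0))]
    apply Finset.sum_congr rfl
    intro x _
    rw [hc]
    simp only [val]
    push_cast
    rw [ZMod.natCast_zmod_val, ZMod.natCast_zmod_val]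
  have h2 : ∑ x : ZMod p, (if (Q.1 : ZMod p) * x ^ 2 + (Q.2.1 : ZMod p) * x +
      (Q.2.2 : ZMod p) ≠ 0 then (1 : ℝ) else 0) = (p : ℝ) - (nrt p Q.1 Q.2.1 Q.2.2 : ℝ) := by
    have h3 : ∀ j : ℕ, (if (p : ℤ) ∣ Q.1 * (j : ℤ) ^ 2 + Q.2.1 * (j : ℤ) + Q.2.2 then
        (1 : ℝ) else 0) + (if ¬ (p : ℤ) ∣ Q.1 * (j : ℤ) ^ 2 + Q.2.1 * (j : ℤ) + Q.2.2 then
        (1 : ℝ) else 0) = 1 := by
      intro j
      split_ifs <;> norm_num
    have h4 : (nrt p Q.1 Q.2.1 Q.2.2 : ℝ) + ∑ j ∈ Finset.range p,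
        (if ¬ (p : ℤ) ∣ Q.1 * (j : ℤ) ^ 2 + Q.2.1 * (j : ℤ) + Q.2.2 then
        (1 : ℝ) else 0) = p := by
      unfold nrt
      rw [← Finset.sum_boole, ← Finset.sum_add_distrib, Finset.sum_congr rfl (fun j _ => h3 j)]
      simp
    rw [grl_rng p (fun j => (if ¬ (p : ℤ) ∣ Q.1 * (j : ℤ) ^ 2 + Q.2.1 * (j : ℤ) + Q.2.2 then
        (1 : ℝ) else 0))] at h4
    have h5 : ∑ x : ZMod p, (if (Q.1 : ZMod p) * x ^ 2 + (Q.2.1 : ZMod p) * x +
        (Q.2.2 : ZMod p) ≠ 0 then (1 : ℝ) else 0) = ∑ x : ZMod p,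
        (if ¬ (p : ℤ) ∣ Q.1 * (x.val : ℤ) ^ 2 + Q.2.1 * (x.val : ℤ) + Q.2.2 then
        (1 : ℝ) else 0) := by
      apply Finset.sum_congr rfl
      intro x _
      rw [hc]
      push_cast
      rw [ZMod.natCast_zmod_val]
    rw [h5]
    linarith
  have h6 : ∀ y : ZMod p, ∑ x : ZMod p, (if (Q.1 : ZMod p) * x ^ 2 + (Q.2.1 : ZMod p) * x * y +
        (Q.2.2 : ZMod p) * y ^ 2 ≠ 0 then (1 : ℝ) else 0) =
      if y = 0 then ((p : ℝ) - 1) * (if (p : ℤ) ∣ Q.1 then 0 else 1) else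
        ((p : ℝ) - (nrt p Q.1 Q.2.1 Q.2.2 : ℝ)) := by
    intro y
    by_cases hy : y = 0
    · rw [if_pos hy, hy]
      by_cases hQ : (p : ℤ) ∣ Q.1
      · rw [if_pos hQ, mul_zero]
        apply Finset.sum_eq_zero
        intro x _
        rw [if_neg]
        rw [not_not, (ZMod.intCast_zmod_eq_zero_iff_dvd _ _).mpr hQ]
        ring
      · rw [if_neg hQ, mul_one]
        have hQ' : (Q.1 : ZMod p) ≠ 0 := fun h =>
          hQ ((ZMod.intCast_zmod_eq_zero_iff_dvd _ _).mp h)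
        have h7 : ∀ x : ZMod p, (if (Q.1 : ZMod p) * x ^ 2 + (Q.2.1 : ZMod p) * x * 0 +
            (Q.2.2 : ZMod p) * 0 ^ 2 ≠ 0 then (1 : ℝ) else 0) =
            1 - (if x = 0 then 1 else 0) := by
          intro x
          by_cases hx : x = 0
          · rw [hx]
            simp
          · rw [if_neg hx, if_pos]
            · ring
            · have h8 : (Q.1 : ZMod p) * x ^ 2 + (Q.2.1 : ZMod p) * x * 0 +
                (Q.2.2 : ZMod p) * 0 ^ 2 = (Q.1 : ZMod p) * x ^ 2 := by ring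
              rw [h8]
              exact mul_ne_zero hQ' (pow_ne_zero 2 hx)
        rw [Finset.sum_congr rfl (fun x _ => h7 x), Finset.sum_sub_distrib]
        simp [ZMod.card]
    · rw [if_neg hy, ← h2, ← Equiv.sum_comp (Equiv.mulRight₀ y hy)]
      apply Finset.sum_congr rfl
      intro x _
      simp only [Equiv.mulRight₀_apply]
      have h8 : (Q.1 : ZMod p) * (x * y) ^ 2 + (Q.2.1 : ZMod p) * (x * y) * y +
          (Q.2.2 : ZMod p) * y ^ 2 = ((Q.1 : ZMod p) * x ^ 2 + (Q.2.1 : ZMod p) * x +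
          (Q.2.2 : ZMod p)) * y ^ 2 := by ring
      rw [h8]
      apply if_congr _ rfl rfl
      rw [mul_ne_zero_iff]
      exact ⟨fun h => h.1, fun h => ⟨h, pow_ne_zero 2 hy⟩⟩
  rw [h1, Finset.sum_congr rfl (fun y _ => h6 y)]
  have h9 : ∀ y : ZMod p, (if y = 0 then ((p : ℝ) - 1) * (if (p : ℤ) ∣ Q.1 then 0 else 1) else
        ((p : ℝ) - (nrt p Q.1 Q.2.1 Q.2.2 : ℝ))) = ((p : ℝ) - (nrt p Q.1 Q.2.1 Q.2.2 : ℝ)) +
        (if y = 0 then ((p : ℝ) - 1) * (if (p : ℤ) ∣ Q.1 then 0 else 1) -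
        ((p : ℝ) - (nrt p Q.1 Q.2.1 Q.2.2 : ℝ)) else 0) := by
    intro y
    split_ifs <;> ring
  rw [Finset.sum_congr rfl (fun y _ => h9 y), Finset.sum_add_distrib, Finset.sum_ite_eq']
  simp only [Finset.sum_const, Finset.card_univ, ZMod.card, Finset.mem_univ, if_true,
    nsmul_eq_mul]
  unfold prt
  push_cast
  split_ifs <;> ring

/-- three vectors -/
theorem grl_key (p : ℕ) (hp : p.Prime) (i j : ℕ) (hji : j ≤ i) (u v v' : ℤ × ℤ)
    (hu : ¬ ((p : ℤ) ∣ u.1 ∧ (p : ℤ) ∣ u.2)) (hv : ¬ ((p : ℤ) ∣ v.1 ∧ (p : ℤ) ∣ v.2))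
    (h : (p : ℤ) ^ i ∣ dtm u v) : ((p : ℤ) ^ j ∣ dtm u v') ↔ ((p : ℤ) ^ j ∣ dtm v v') := by
  have hpp : Prime (p : ℤ) := Nat.prime_iff_prime_int.mp hp
  have hj : (p : ℤ) ^ j ∣ dtm u v := (pow_dvd_pow _ hji).trans h
  have h1 : u.1 * dtm v v' = v.1 * dtm u v' - v'.1 * dtm u v := by
    unfold dtm
    ring
  have h2 : u.2 * dtm v v' = v.2 * dtm u v' - v'.2 * dtm u v := by
    unfold dtm
    ring
  have hcan : ∀ x z : ℤ, ¬ (p : ℤ) ∣ x → (p : ℤ) ^ j ∣ x * z → (p : ℤ) ^ j ∣ z := by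
    intro x z hx hz
    exact (((Prime.coprime_iff_not_dvd hpp).mpr hx).pow_left (m := j)).dvd_of_dvd_mul_left hz
  constructor
  · intro h3
    by_cases h4 : (p : ℤ) ∣ u.1
    · apply hcan u.2 _ (fun h5 => hu ⟨h4, h5⟩)
      rw [h2]
      exact dvd_sub (h3.mul_left _) (hj.mul_left _)
    · apply hcan u.1 _ h4
      rw [h1]
      exact dvd_sub (h3.mul_left _) (hj.mul_left _)
  · intro h3
    by_cases h4 : (p : ℤ) ∣ v.1
    · apply hcan v.2 _ (fun h5 => hv ⟨h4, h5⟩)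
      have h6 : v.2 * dtm u v' = u.2 * dtm v v' + v'.2 * dtm u v := by linarith
      rw [h6]
      exact dvd_add (h3.mul_left _) (hj.mul_left _)
    · apply hcan v.1 _ h4
      have h6 : v.1 * dtm u v' = u.1 * dtm v v' + v'.1 * dtm u v := by linarith
      rw [h6]
      exact dvd_add (h3.mul_left _) (hj.mul_left _)

/-- linearity -/
theorem grl_sum (s : Finset ℕ) (F A B E : ℕ → ℕ → ℝ) (x y n SA SB SE : ℝ)
    (hF : ∀ a b, F a b = x * A a b - y * A a b / n - y * B a b / n + y * E a b / n ^ 2)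
    (hA : ∑ a ∈ s, ∑ b ∈ s, A a b = SA) (hB : ∑ a ∈ s, ∑ b ∈ s, B a b = SB)
    (hE : ∑ a ∈ s, ∑ b ∈ s, E a b = SE) :
    ∑ a ∈ s, ∑ b ∈ s, F a b = x * SA - y * SA / n - y * SB / n + y * SE / n ^ 2 := by
  rw [← hA, ← hB, ← hE]
  simp only [hF, Finset.sum_add_distrib, Finset.sum_sub_distrib, ← Finset.mul_sum,
    ← Finset.sum_div]

/-- **(GRL)** -/
theorem pf_GRL : T_GRL := by
  classical
  intro f p Q v v' hf hp hpf
  have hk : 1 ≤ f.factorization p := hp.factorization_pos_of_dvd (by omega) hpf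
  have hkp : ∀ w w' : ℤ × ℤ, kp f p Q w w' = if (p : ℤ) ∣ val Q w ∨ (p : ℤ) ∣ val Q w' then 0 else
      (if (p : ℤ) ^ (f.factorization p) ∣ dtm w w' then 1 else 0) -
      (if (p : ℤ) ^ (f.factorization p - 1) ∣ dtm w w' then 1 else 0) / (npQ f p Q : ℝ) := by
    intro w w'
    unfold kp
    congr
  by_cases hv : (p : ℤ) ∣ val Q v
  · rw [hkp v v', if_pos (Or.inl hv), mul_zero]
    symm
    apply Finset.sum_eq_zero
    intro a _
    apply Finset.sum_eq_zero
    intro b _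
    rw [hkp _ v, if_pos (Or.inr hv), zero_mul]
  by_cases hv' : (p : ℤ) ∣ val Q v'
  · rw [hkp v v', if_pos (Or.inr hv'), mul_zero]
    symm
    apply Finset.sum_eq_zero
    intro a _
    apply Finset.sum_eq_zero
    intro b _
    rw [hkp _ v', if_pos (Or.inr hv'), mul_zero]
  -- the counts
  have hn2 : p ^ 2 ∣ f ↔ 2 ≤ f.factorization p :=
    hp.pow_dvd_iff_le_factorization (by omega)
  have hC1 : ∀ w : ℤ × ℤ, ¬ (p : ℤ) ∣ val Q w →
      ∑ a ∈ Finset.range (p ^ f.factorization p), ∑ b ∈ Finset.range (p ^ f.factorization p),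
      (if ¬ (p : ℤ) ∣ val Q ((a : ℤ), (b : ℤ)) ∧
        (p : ℤ) ^ f.factorization p ∣ dtm ((a : ℤ), (b : ℤ)) w
        then (1 : ℝ) else 0) = (Nat.totient (p ^ f.factorization p) : ℝ) := by
    intro w hw
    rw [grl_cnt p _ _ hp hk le_rfl Q w hw, Nat.sub_self, pow_zero, mul_one]
  have hC2 : ∑ a ∈ Finset.range (p ^ f.factorization p),
      ∑ b ∈ Finset.range (p ^ f.factorization p),
      (if ¬ (p : ℤ) ∣ val Q ((a : ℤ), (b : ℤ)) ∧
        (p : ℤ) ^ (f.factorization p - 1) ∣ dtm ((a : ℤ), (b : ℤ)) v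
        then (1 : ℝ) else 0) =
      (npQ f p Q : ℝ) * (Nat.totient (p ^ f.factorization p) : ℝ) := by
    by_cases h2 : 2 ≤ f.factorization p
    · rw [grl_cnt p _ _ hp (by omega) (Nat.sub_le _ _) Q v hv]
      have h3 : npQ f p Q = (p : ℤ) := by
        unfold npQ
        rw [if_pos (hn2.mpr h2)]
      have h4 : f.factorization p - (f.factorization p - 1) = 1 := by omega
      rw [h3, h4, pow_one]
      push_cast
      ring
    · have h3 : f.factorization p = 1 := by omega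
      have h4 : npQ f p Q = (p : ℤ) + 1 - prt p Q := by
        unfold npQ
        rw [if_neg (fun h => h2 (hn2.mp h))]
      have h5 := grl_all p hp Q
      rw [h3, h4, pow_one, Nat.sub_self, pow_zero, Nat.totient_prime hp]
      have h6 : ((p - 1 : ℕ) : ℝ) = (p : ℝ) - 1 := by
        rw [Nat.cast_sub hp.one_lt.le]
        simp
      rw [h6]
      simp only [one_dvd, and_true]
      rw [h5]
      push_cast
      ring
  have hn0 : (npQ f p Q : ℝ) ≠ 0 := by
    intro h0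
    rw [h0, zero_mul] at hC2
    have h7 := hC1 v hv
    have h8 : (0 : ℝ) < (Nat.totient (p ^ f.factorization p) : ℝ) := by
      exact_mod_cast Nat.totient_pos.mpr (pow_pos hp.pos _)
    have h9 : ∑ a ∈ Finset.range (p ^ f.factorization p),
        ∑ b ∈ Finset.range (p ^ f.factorization p),
        (if ¬ (p : ℤ) ∣ val Q ((a : ℤ), (b : ℤ)) ∧
          (p : ℤ) ^ f.factorization p ∣ dtm ((a : ℤ), (b : ℤ)) v then (1 : ℝ) else 0) ≤
        ∑ a ∈ Finset.range (p ^ f.factorization p),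
        ∑ b ∈ Finset.range (p ^ f.factorization p),
        (if ¬ (p : ℤ) ∣ val Q ((a : ℤ), (b : ℤ)) ∧
          (p : ℤ) ^ (f.factorization p - 1) ∣ dtm ((a : ℤ), (b : ℤ)) v
          then (1 : ℝ) else 0) := by
      apply Finset.sum_le_sum
      intro a _
      apply Finset.sum_le_sum
      intro b _
      by_cases h10 : ¬ (p : ℤ) ∣ val Q ((a : ℤ), (b : ℤ)) ∧
          (p : ℤ) ^ f.factorization p ∣ dtm ((a : ℤ), (b : ℤ)) v
      · rw [if_pos h10, if_pos ⟨h10.1, (pow_dvd_pow _ (Nat.sub_le _ _)).trans h10.2⟩]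
      · rw [if_neg h10]
        split_ifs <;> norm_num
    rw [h7, hC2] at h9
    linarith
  -- one term
  have hterm : ∀ u : ℤ × ℤ, kp f p Q u v * kp f p Q u v' =
      (if (p : ℤ) ^ f.factorization p ∣ dtm v v' then (1 : ℝ) else 0) *
        (if ¬ (p : ℤ) ∣ val Q u ∧ (p : ℤ) ^ f.factorization p ∣ dtm u v
          then (1 : ℝ) else 0) -
      (if (p : ℤ) ^ (f.factorization p - 1) ∣ dtm v v' then (1 : ℝ) else 0) *
        (if ¬ (p : ℤ) ∣ val Q u ∧ (p : ℤ) ^ f.factorization p ∣ dtm u v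
          then (1 : ℝ) else 0) / (npQ f p Q : ℝ) -
      (if (p : ℤ) ^ (f.factorization p - 1) ∣ dtm v v' then (1 : ℝ) else 0) *
        (if ¬ (p : ℤ) ∣ val Q u ∧ (p : ℤ) ^ f.factorization p ∣ dtm u v'
          then (1 : ℝ) else 0) / (npQ f p Q : ℝ) +
      (if (p : ℤ) ^ (f.factorization p - 1) ∣ dtm v v' then (1 : ℝ) else 0) *
        (if ¬ (p : ℤ) ∣ val Q u ∧ (p : ℤ) ^ (f.factorization p - 1) ∣ dtm u v
          then (1 : ℝ) else 0) / (npQ f p Q : ℝ) ^ 2 := by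
    intro u
    by_cases hu : (p : ℤ) ∣ val Q u
    · rw [hkp u v, if_pos (Or.inl hu), zero_mul]
      simp only [hu, not_true_eq_false, false_and, if_false]
      ring
    · rw [hkp u v, hkp u v', if_neg (not_or.mpr ⟨hu, hv⟩), if_neg (not_or.mpr ⟨hu, hv'⟩)]
      simp only [hu, not_false_eq_true, true_and]
      have hpu := grl_prim p Q u hu
      have hpv := grl_prim p Q v hv
      have hpv' := grl_prim p Q v' hv'
      have hkk : f.factorization p - 1 ≤ f.factorization p := Nat.sub_le _ _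
      have hsym : ∀ j : ℕ, ((p : ℤ) ^ j ∣ dtm v' v) ↔ ((p : ℤ) ^ j ∣ dtm v v') := by
        intro j
        have h0 : dtm v' v = -dtm v v' := by
          unfold dtm
          ring
        rw [h0, dvd_neg]
      have e1 : (if (p : ℤ) ^ f.factorization p ∣ dtm u v then (1 : ℝ) else 0) *
          (if (p : ℤ) ^ f.factorization p ∣ dtm u v' then (1 : ℝ) else 0) =
          (if (p : ℤ) ^ f.factorization p ∣ dtm v v' then (1 : ℝ) else 0) *
          (if (p : ℤ) ^ f.factorization p ∣ dtm u v then (1 : ℝ) else 0) := by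
        by_cases h : (p : ℤ) ^ f.factorization p ∣ dtm u v
        · rw [if_pos h, if_congr (grl_key p hp _ _ le_rfl u v v' hpu hpv h) rfl rfl]
          ring
        · rw [if_neg h]
          ring
      have e2 : (if (p : ℤ) ^ f.factorization p ∣ dtm u v then (1 : ℝ) else 0) *
          (if (p : ℤ) ^ (f.factorization p - 1) ∣ dtm u v' then (1 : ℝ) else 0) =
          (if (p : ℤ) ^ (f.factorization p - 1) ∣ dtm v v' then (1 : ℝ) else 0) *
          (if (p : ℤ) ^ f.factorization p ∣ dtm u v then (1 : ℝ) else 0) := by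
        by_cases h : (p : ℤ) ^ f.factorization p ∣ dtm u v
        · rw [if_pos h, if_congr (grl_key p hp _ _ hkk u v v' hpu hpv h) rfl rfl]
          ring
        · rw [if_neg h]
          ring
      have e3 : (if (p : ℤ) ^ (f.factorization p - 1) ∣ dtm u v then (1 : ℝ) else 0) *
          (if (p : ℤ) ^ f.factorization p ∣ dtm u v' then (1 : ℝ) else 0) =
          (if (p : ℤ) ^ (f.factorization p - 1) ∣ dtm v v' then (1 : ℝ) else 0) *
          (if (p : ℤ) ^ f.factorization p ∣ dtm u v' then (1 : ℝ) else 0) := by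
        by_cases h : (p : ℤ) ^ f.factorization p ∣ dtm u v'
        · rw [if_pos h, if_congr ((grl_key p hp _ _ hkk u v' v hpu hpv' h).trans (hsym _)) rfl rfl]
        · rw [if_neg h]
          ring
      have e4 : (if (p : ℤ) ^ (f.factorization p - 1) ∣ dtm u v then (1 : ℝ) else 0) *
          (if (p : ℤ) ^ (f.factorization p - 1) ∣ dtm u v' then (1 : ℝ) else 0) =
          (if (p : ℤ) ^ (f.factorization p - 1) ∣ dtm v v' then (1 : ℝ) else 0) *
          (if (p : ℤ) ^ (f.factorization p - 1) ∣ dtm u v then (1 : ℝ) else 0) := by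
        by_cases h : (p : ℤ) ^ (f.factorization p - 1) ∣ dtm u v
        · rw [if_pos h, if_congr (grl_key p hp _ _ le_rfl u v v' hpu hpv h) rfl rfl]
          ring
        · rw [if_neg h]
          ring
      linear_combination e1 - e2 / (npQ f p Q : ℝ) - e3 / (npQ f p Q : ℝ) +
        e4 / (npQ f p Q : ℝ) ^ 2
  rw [hkp v v', if_neg (not_or.mpr ⟨hv, hv'⟩)]
  have hS : ∑ a ∈ Finset.range (p ^ f.factorization p),
      ∑ b ∈ Finset.range (p ^ f.factorization p),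
        kp f p Q ((a : ℤ), (b : ℤ)) v * kp f p Q ((a : ℤ), (b : ℤ)) v' =
      (if (p : ℤ) ^ f.factorization p ∣ dtm v v' then (1 : ℝ) else 0) *
        (Nat.totient (p ^ f.factorization p) : ℝ) -
      (if (p : ℤ) ^ (f.factorization p - 1) ∣ dtm v v' then (1 : ℝ) else 0) *
        (Nat.totient (p ^ f.factorization p) : ℝ) / (npQ f p Q : ℝ) -
      (if (p : ℤ) ^ (f.factorization p - 1) ∣ dtm v v' then (1 : ℝ) else 0) *
        (Nat.totient (p ^ f.factorization p) : ℝ) / (npQ f p Q : ℝ) +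
      (if (p : ℤ) ^ (f.factorization p - 1) ∣ dtm v v' then (1 : ℝ) else 0) *
        ((npQ f p Q : ℝ) * (Nat.totient (p ^ f.factorization p) : ℝ)) /
          (npQ f p Q : ℝ) ^ 2 := by
    exact grl_sum _ _ _ _ _ _ _ _ _ _ _ (fun a b => hterm ((a : ℤ), (b : ℤ))) (hC1 v hv)
      (hC1 v' hv') hC2
  rw [hS]
  field_simp
  ring

end Pool.Agent.H14.CFU
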