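import Pool.Agent.H31.CF.U3

/-!
# (KIN) the kernel: invariance, symmetry, bound
-/

set_option autoImplicit false

open Pool.Agent.H31.CN Pool.Agent.H91.CF Pool.Agent.H31.CF
open scoped Real Matrix MatrixGroups

namespace Pool.Agent.H14.CFU

/-- the determinant of two vectors is invariant -/
theorem dtm_gv (g : SL(2, ℤ)) (v v' : ℤ × ℤ) : dtm (gv g v) (gv g v') = dtm v v' := by
  have h := g.det_coe
  rw [Matrix.det_fin_two] at h
  unfold dtm gv
  linear_combination (v.1 * v'.2 - v.2 * v'.1) * h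

/-- symmetry -/
theorem dtm_comm (v v' : ℤ × ℤ) : dtm v' v = -dtm v v' := by
  unfold dtm
  ring

/-- the number of the zeros on the projective line is invariant -/
theorem prt_act (hNUI : T_NUI) (p : ℕ) (hp : p.Prime) (Q : QF) (g : SL(2, ℤ)) :
    prt p (act Q g) = prt p Q := by
  have h := hNUI p Q g 0 hp
  have h1 : gv g 0 = 0 := by simp [gv]
  rw [h1] at h
  simpa [nul] using h

/-- the number of zeros is at most `p` if the form has a value prime to `p` -/
theorem prt_le (p : ℕ) (hp : p.Prime) (Q : QF) (v : ℤ × ℤ) (hv : ¬ (p : ℤ) ∣ val Q v) :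
    prt p Q ≤ p := by
  have := Fact.mk hp
  unfold prt nrt
  by_cases h1 : (p : ℤ) ∣ Q.1
  · rw [if_pos h1]
    have hQ1 : (Q.1 : ZMod p) = 0 := (ZMod.intCast_zmod_eq_zero_iff_dvd _ _).mpr h1
    have hval : ((val Q v : ℤ) : ZMod p) ≠ 0 := fun h =>
      hv ((ZMod.intCast_zmod_eq_zero_iff_dvd _ _).mp h)
    have hy : ((v.2 : ℤ) : ZMod p) ≠ 0 := by
      intro h
      apply hval
      unfold val
      push_cast
      rw [hQ1, h]
      ring
    set j0 : ℕ := (((v.1 : ℤ) : ZMod p) * (((v.2 : ℤ) : ZMod p))⁻¹).val with hj0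
    have hj1 : (j0 : ZMod p) = ((v.1 : ℤ) : ZMod p) * (((v.2 : ℤ) : ZMod p))⁻¹ := by
      rw [hj0, ZMod.natCast_zmod_val]
    have hj2 : (j0 : ZMod p) * ((v.2 : ℤ) : ZMod p) = ((v.1 : ℤ) : ZMod p) := by
      rw [hj1, mul_assoc, inv_mul_cancel₀ hy, mul_one]
    have hjp : j0 < p := ZMod.val_lt _
    have hsub : (Finset.range p).filter (fun j : ℕ => (p : ℤ) ∣ Q.1 * (j : ℤ) ^ 2 +
        Q.2.1 * (j : ℤ) + Q.2.2) ⊆ (Finset.range p).erase j0 := by
      intro j hj
      rw [Finset.mem_filter] at hj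
      rw [Finset.mem_erase]
      refine ⟨?_, hj.1⟩
      rintro rfl
      have h2 := (ZMod.intCast_zmod_eq_zero_iff_dvd _ _).mpr hj.2
      apply hval
      unfold val
      push_cast at h2 ⊢
      rw [← hj2]
      linear_combination ((v.2 : ℤ) : ZMod p) ^ 2 * h2
    have h3 := Finset.card_le_card hsub
    rw [Finset.card_erase_of_mem (Finset.mem_range.mpr hjp), Finset.card_range] at h3
    have := hp.pos
    omega
  · rw [if_neg h1]
    have h3 := Finset.card_le_card (Finset.filter_subset (fun j : ℕ => (p : ℤ) ∣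
      Q.1 * (j : ℤ) ^ 2 + Q.2.1 * (j : ℤ) + Q.2.2) (Finset.range p))
    rw [Finset.card_range] at h3
    omega

/-- the number of the unit lines is positive -/
theorem npQ_pos (f p : ℕ) (hp : p.Prime) (Q : QF) (v : ℤ × ℤ) (hv : ¬ (p : ℤ) ∣ val Q v) :
    1 ≤ npQ f p Q := by
  unfold npQ
  have h1 := prt_le p hp Q v hv
  have h2 := hp.pos
  split_ifs <;> omega

/-- the bound at one prime -/
theorem kp_abs (f p : ℕ) (hp : p.Prime) (Q : QF) (v v' : ℤ × ℤ) : |kp f p Q v v'| ≤ 1 := by
  classical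
  unfold kp
  by_cases h : (p : ℤ) ∣ val Q v ∨ (p : ℤ) ∣ val Q v'
  · rw [if_pos h]
    simp
  · rw [if_neg h]
    rw [not_or] at h
    have hn := npQ_pos f p hp Q v h.1
    have hn' : (1 : ℝ) ≤ (npQ f p Q : ℝ) := by exact_mod_cast hn
    have hi0 : 0 ≤ 1 / (npQ f p Q : ℝ) := by positivity
    have hi1 : 1 / (npQ f p Q : ℝ) ≤ 1 := by
      rw [div_le_one (by linarith)]
      exact hn'
    by_cases h1 : (p : ℤ) ^ (f.factorization p) ∣ dtm v v'
    · have h2 : (p : ℤ) ^ (f.factorization p - 1) ∣ dtm v v' :=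
        (pow_dvd_pow _ (Nat.sub_le _ _)).trans h1
      rw [if_pos h1, if_pos h2, abs_le]
      constructor <;> linarith
    · rw [if_neg h1]
      by_cases h2 : (p : ℤ) ^ (f.factorization p - 1) ∣ dtm v v'
      · rw [if_pos h2, abs_le]
        constructor <;> linarith
      · rw [if_neg h2]
        simp

/-- **(KIN)** -/
theorem pf_KIN (hACT : T_ACT) (hNUI : T_NUI) : T_KIN := by
  classical
  intro f Q v v' hf
  refine ⟨?_, ?_, ?_, ?_, ?_⟩
  · intro g
    unfold kern
    apply Finset.prod_congr rfl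
    intro p hp
    have hpp := Nat.prime_of_mem_primeFactors hp
    unfold kp
    rw [(hACT Q g 1 v).1, (hACT Q g 1 v').1, dtm_gv]
    have h1 : npQ f p (act Q g) = npQ f p Q := by
      unfold npQ
      rw [prt_act hNUI p hpp]
    rw [h1]
  · unfold kern
    apply Finset.prod_congr rfl
    intro p _
    unfold kp
    have h1 : ∀ j : ℕ, ((p : ℤ) ^ j ∣ dtm v' v) ↔ ((p : ℤ) ^ j ∣ dtm v v') := by
      intro j
      rw [dtm_comm v v', dvd_neg]
    rw [if_congr (h1 _) rfl rfl, if_congr (h1 _) rfl rfl,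
      if_congr (or_comm (a := (p : ℤ) ∣ val Q v')) rfl rfl]
  · unfold kern
    rw [Finset.abs_prod]
    apply Finset.prod_le_one
    · intro p _
      exact abs_nonneg _
    · intro p hp
      exact kp_abs f p (Nat.prime_of_mem_primeFactors hp) Q v v'
  · intro e
    by_cases he : Nat.Coprime e f
    · rw [if_pos he]
      unfold kern
      apply Finset.prod_congr rfl
      intro p hp
      have hpp := Nat.prime_of_mem_primeFactors hp
      have hpf := Nat.dvd_of_mem_primeFactors hp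
      have hpe : IsCoprime (p : ℤ) (e : ℤ) := by
        rw [Nat.isCoprime_iff_coprime]
        exact (Nat.Coprime.coprime_dvd_right hpf he).symm
      have h1 : ((p : ℤ) ∣ val Q ((e : ℤ), 0)) ↔ ((p : ℤ) ∣ val Q (1, 0)) := by
        have h2 : val Q ((e : ℤ), 0) = val Q (1, 0) * (e : ℤ) ^ 2 := by
          simp only [val]
          ring
        rw [h2]
        exact ⟨fun h => (hpe.pow_right (n := 2)).dvd_of_dvd_mul_right h,
          fun h => h.mul_right _⟩
      have h3 : ∀ j : ℕ, ((p : ℤ) ^ j ∣ dtm ((e : ℤ), 0) v') ↔ ((p : ℤ) ^ j ∣ dtm (1, 0) v') := by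
        intro j
        have h4 : dtm ((e : ℤ), 0) v' = (e : ℤ) * dtm (1, 0) v' := by
          simp only [dtm]
          ring
        rw [h4]
        exact ⟨fun h => (hpe.pow_left (m := j)).dvd_of_dvd_mul_left h,
          fun h => h.mul_left _⟩
      unfold kp
      rw [if_congr (or_congr_left h1) rfl rfl, if_congr (h3 _) rfl rfl, if_congr (h3 _) rfl rfl]
    · rw [if_neg he]
      obtain ⟨p, hp, hpe, hpf⟩ := Nat.Prime.not_coprime_iff_dvd.mp he
      have hmem : p ∈ f.primeFactors := Nat.mem_primeFactors.mpr ⟨hp, hpf, by omega⟩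
      unfold kern
      apply Finset.prod_eq_zero hmem
      unfold kp
      rw [if_pos]
      left
      obtain ⟨t, rfl⟩ := hpe
      simp only [val]
      exact ⟨Q.1 * p * t ^ 2, by push_cast; ring⟩
  · intro hg
    obtain ⟨p, hp, hpg⟩ := Nat.exists_prime_and_dvd hg
    have hp1 : (p : ℤ) ∣ Q.1 := (Int.natCast_dvd_natCast.mpr hpg).trans (Int.gcd_dvd_left _ _)
    have hp2 : (p : ℤ) ∣ (f : ℤ) := (Int.natCast_dvd_natCast.mpr hpg).trans (Int.gcd_dvd_right _ _)
    have hpf : p ∣ f := by exact_mod_cast hp2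
    have hmem : p ∈ f.primeFactors := Nat.mem_primeFactors.mpr ⟨hp, hpf, by omega⟩
    unfold kern
    apply Finset.prod_eq_zero hmem
    unfold kp
    rw [if_pos]
    left
    simpa [val] using hp1

end Pool.Agent.H14.CFU
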